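import Mathlib

/-!
# Commuting `H`-polar decompositions of an `H`-indecomposable matrix

If `X ≠ 0` is `H`-indecomposable and has an `H`-polar decomposition with commuting factors, then
the `H`-selfadjoint factor of such a decomposition is unique up to sign.
-/

set_option autoImplicit false

namespace Pool.Agent.Results.MP_d7084b_al.CommutingPolar

open Matrix

variable {n : ℕ}

/-- The indefinite inner product `[x, y] = ⟨H x, y⟩` with `⟨x, y⟩ = x* y`. -/
def form (H : Matrix (Fin n) (Fin n) ℂ) (x y : Fin n → ℂ) : ℂ := star (H *ᵥ x) ⬝ᵥ y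

/-- The `H`-adjoint `H⁻¹ M* H` of `M`. -/
noncomputable def adj (H M : Matrix (Fin n) (Fin n) ℂ) : Matrix (Fin n) (Fin n) ℂ :=
  H⁻¹ * Mᴴ * H

/-- The subspace `W` is `H`-nondegenerate. -/
def Nondegenerate (H : Matrix (Fin n) (Fin n) ℂ) (W : Submodule ℂ (Fin n → ℂ)) : Prop :=
  ∀ x ∈ W, (∀ y ∈ W, form H x y = 0) → x = 0

/-- `X` is `H`-decomposable: some proper nonzero `H`-nondegenerate subspace is invariant under `X`
and under its `H`-adjoint. -/
def Decomposable (H X : Matrix (Fin n) (Fin n) ℂ) : Prop :=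
  ∃ W : Submodule ℂ (Fin n → ℂ), W ≠ ⊥ ∧ W ≠ ⊤ ∧ Nondegenerate H W ∧
    (∀ x ∈ W, X *ᵥ x ∈ W) ∧ ∀ x ∈ W, adj H X *ᵥ x ∈ W

/-- `X = U A` is an `H`-polar decomposition with commuting factors. -/
def IsPolar (H X U A : Matrix (Fin n) (Fin n) ℂ) : Prop :=
  adj H U * U = 1 ∧ adj H A = A ∧ X = U * A ∧ U * A = A * U

/-- The set of the selfadjoint factors `A` of the `H`-polar decompositions `X = U A` with commuting
factors; its cardinality is `CPD(X, H)`. -/
def factors (H X : Matrix (Fin n) (Fin n) ℂ) : Set (Matrix (Fin n) (Fin n) ℂ) :=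
  {A | ∃ U, IsPolar H X U A}

section basics

variable {H : Matrix (Fin n) (Fin n) ℂ}

theorem form_add_right (x y z : Fin n → ℂ) : form H x (y + z) = form H x y + form H x z := by
  simp [form, dotProduct_add]

theorem form_add_left (x y z : Fin n → ℂ) : form H (x + y) z = form H x z + form H y z := by
  simp [form, Matrix.mulVec_add, add_dotProduct]

theorem form_smul_right (c : ℂ) (x y : Fin n → ℂ) : form H x (c • y) = c * form H x y := by
  simp [form, dotProduct_smul]

theorem form_zero_right (x : Fin n → ℂ) : form H x 0 = 0 := by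
  simp [form]

theorem form_zero_left (x : Fin n → ℂ) : form H 0 x = 0 := by
  simp [form]

theorem form_eq (x y : Fin n → ℂ) : form H x y = star x ⬝ᵥ (Hᴴ *ᵥ y) := by
  rw [form, Matrix.star_mulVec, Matrix.dotProduct_mulVec]

theorem form_symm (hH : H.IsHermitian) (x y : Fin n → ℂ) : form H y x = star (form H x y) := by
  rw [form_eq x y, hH.eq, form, ← star_dotProduct_star, star_star, dotProduct_comm]

theorem form_symm_zero (hH : H.IsHermitian) {x y : Fin n → ℂ} (h : form H x y = 0) :
    form H y x = 0 := by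
  rw [form_symm hH, h, star_zero]

theorem eq_zero_of_form_left (hu : IsUnit H) {x : Fin n → ℂ}
    (h : ∀ y, form H x y = 0) : x = 0 := by
  have h1 : star (H *ᵥ x) = 0 := by
    apply dotProduct_eq_zero
    intro w
    exact h w
  have h2 : H *ᵥ x = 0 := by
    have := congrArg star h1
    simpa using this
  exact (Matrix.mulVec_injective_iff_isUnit.mpr hu) (by rw [h2, Matrix.mulVec_zero])

theorem eq_zero_of_form_right (hH : H.IsHermitian) (hu : IsUnit H) {x : Fin n → ℂ}
    (h : ∀ y, form H y x = 0) : x = 0 :=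
  eq_zero_of_form_left hu fun y => form_symm_zero hH (h y)

theorem form_adj (hH : H.IsHermitian) (hu : IsUnit H) (T : Matrix (Fin n) (Fin n) ℂ)
    (x y : Fin n → ℂ) : form H (T *ᵥ x) y = form H x (adj H T *ᵥ y) := by
  have hd : IsUnit H.det := (Matrix.isUnit_iff_isUnit_det H).mp hu
  rw [form_eq, form_eq, Matrix.star_mulVec, ← Matrix.dotProduct_mulVec, Matrix.mulVec_mulVec,
    Matrix.mulVec_mulVec, adj, hH.eq]
  congr 2
  rw [← Matrix.mul_assoc, ← Matrix.mul_assoc, Matrix.mul_nonsing_inv H hd, Matrix.one_mul]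

theorem adj_mul (hu : IsUnit H) (S T : Matrix (Fin n) (Fin n) ℂ) :
    adj H (S * T) = adj H T * adj H S := by
  have hd : IsUnit H.det := (Matrix.isUnit_iff_isUnit_det H).mp hu
  unfold adj
  rw [Matrix.conjTranspose_mul]
  have : H⁻¹ * Tᴴ * H * (H⁻¹ * Sᴴ * H) = H⁻¹ * Tᴴ * (H * H⁻¹) * Sᴴ * H := by
    noncomm_ring
  rw [this, Matrix.mul_nonsing_inv H hd]
  noncomm_ring

theorem adj_add (S T : Matrix (Fin n) (Fin n) ℂ) : adj H (S + T) = adj H S + adj H T := by
  unfold adj
  rw [Matrix.conjTranspose_add]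
  noncomm_ring

theorem adj_sub (S T : Matrix (Fin n) (Fin n) ℂ) : adj H (S - T) = adj H S - adj H T := by
  unfold adj
  rw [Matrix.conjTranspose_sub]
  noncomm_ring

theorem adj_adj (hH : H.IsHermitian) (hu : IsUnit H) (T : Matrix (Fin n) (Fin n) ℂ) :
    adj H (adj H T) = T := by
  have hd : IsUnit H.det := (Matrix.isUnit_iff_isUnit_det H).mp hu
  unfold adj
  rw [Matrix.conjTranspose_mul, Matrix.conjTranspose_mul, Matrix.conjTranspose_conjTranspose,
    Matrix.conjTranspose_nonsing_inv, hH.eq]
  have : H⁻¹ * (H * (T * H⁻¹)) * H = (H⁻¹ * H) * T * (H⁻¹ * H) := by noncomm_ring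
  rw [this, Matrix.nonsing_inv_mul H hd, Matrix.one_mul, Matrix.mul_one]

theorem adj_scalar (hu : IsUnit H) (c : ℂ) :
    adj H (algebraMap ℂ (Matrix (Fin n) (Fin n) ℂ) c) = algebraMap ℂ _ (star c) := by
  have hd : IsUnit H.det := (Matrix.isUnit_iff_isUnit_det H).mp hu
  unfold adj
  have : (algebraMap ℂ (Matrix (Fin n) (Fin n) ℂ) c)ᴴ = algebraMap ℂ _ (star c) := by
    rw [Algebra.algebraMap_eq_smul_one, Algebra.algebraMap_eq_smul_one,
      Matrix.conjTranspose_smul, Matrix.conjTranspose_one]
  rw [this, ← Algebra.commutes, Matrix.mul_assoc, Matrix.nonsing_inv_mul H hd, Matrix.mul_one]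

end basics

section fitting

variable {H X : Matrix (Fin n) (Fin n) ℂ}

/-- An `H`-selfadjoint matrix commuting with the `H`-indecomposable matrix `X` and with its
`H`-adjoint is nilpotent or invertible. -/
theorem fitting (hH : H.IsHermitian) (hu : IsUnit H) (hind : ¬ Decomposable H X)
    {T : Matrix (Fin n) (Fin n) ℂ} (hT : adj H T = T) (h1 : Commute T X)
    (h2 : Commute T (adj H X)) : IsNilpotent T ∨ IsUnit T := by
  obtain ⟨k, hk⟩ := Filter.eventually_atTop.mp
    (LinearMap.eventually_isCompl_ker_pow_range_pow (Matrix.toLin' T))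
  have hm := hk (k + 1) (by omega)
  rw [← Matrix.toLin'_pow] at hm
  set S : Matrix (Fin n) (Fin n) ℂ := T ^ (k + 1) with hS
  have hSadj : ∀ x y, form H (S *ᵥ x) y = form H x (S *ᵥ y) := by
    have : ∀ m : ℕ, adj H (T ^ m) = T ^ m := by
      intro m
      induction m with
      | zero =>
        have hd : IsUnit H.det := (Matrix.isUnit_iff_isUnit_det H).mp hu
        rw [pow_zero, adj, Matrix.conjTranspose_one, Matrix.mul_one,
          Matrix.nonsing_inv_mul H hd]
      | succ m ih =>
        rw [pow_succ, adj_mul hu, ih, hT, ← pow_succ', pow_succ]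
    intro x y
    rw [form_adj hH hu, hS, this]
  have hmem : ∀ x, x ∈ LinearMap.range (Matrix.toLin' S) ↔ ∃ a, S *ᵥ a = x := by
    intro x
    simp [LinearMap.mem_range]
  by_contra hcon
  push Not at hcon
  apply hind
  refine ⟨LinearMap.range (Matrix.toLin' S), ?_, ?_, ?_, ?_, ?_⟩
  · intro hb
    apply hcon.1
    refine ⟨k + 1, ?_⟩
    rw [LinearMap.range_eq_bot] at hb
    exact (Matrix.toLin'.map_eq_zero_iff).mp hb
  · intro ht
    apply hcon.2
    have : IsUnit S := by
      apply Matrix.mulVec_surjective_iff_isUnit.mp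
      intro x
      have : x ∈ LinearMap.range (Matrix.toLin' S) := by rw [ht]; trivial
      exact (hmem x).mp this
    exact (isUnit_pow_iff (Nat.succ_ne_zero k)).mp this
  · intro x hx h
    have h3 : S *ᵥ x = 0 := by
      apply eq_zero_of_form_left hu
      intro y
      rw [hSadj]
      exact h _ ((hmem _).mpr ⟨y, rfl⟩)
    have h4 : x ∈ LinearMap.ker (Matrix.toLin' S) := by
      simpa [LinearMap.mem_ker] using h3
    exact (Submodule.disjoint_def.mp hm.disjoint) x h4 hx
  · intro x hx
    obtain ⟨a, rfl⟩ := (hmem x).mp hx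
    refine (hmem _).mpr ⟨X *ᵥ a, ?_⟩
    rw [Matrix.mulVec_mulVec, Matrix.mulVec_mulVec, hS, (h1.pow_left (k + 1)).eq]
  · intro x hx
    obtain ⟨a, rfl⟩ := (hmem x).mp hx
    refine (hmem _).mpr ⟨adj H X *ᵥ a, ?_⟩
    rw [Matrix.mulVec_mulVec, Matrix.mulVec_mulVec, hS, (h2.pow_left (k + 1)).eq]

/-- If `U` is the unitary factor of an `H`-polar decomposition of the indecomposable matrix `X` with
commuting factors, then no nonzero matrix anticommutes with `U`. -/
theorem anticomm (hH : H.IsHermitian) (hu : IsUnit H) (hX : X ≠ 0) (hind : ¬ Decomposable H X)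
    {U A D : Matrix (Fin n) (Fin n) ℂ} (hp : IsPolar H X U A) (hD : U * D = -(D * U)) : D = 0 := by
  have : Nontrivial (Matrix (Fin n) (Fin n) ℂ) := nontrivial_of_ne X 0 hX
  obtain ⟨hU, hA, hXA, hc⟩ := hp
  have hU' : U * adj H U = 1 := mul_eq_one_comm.mp hU
  set U' := adj H U with hU'def
  have hUU' : Commute U U' := by
    show U * U' = U' * U
    rw [hU, hU']
  have hUA : Commute U A := hc
  have hU'A : Commute U' A := by
    show U' * A = A * U'
    calc U' * A = U' * A * (U * U') := by rw [hU', mul_one]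
      _ = U' * (A * U) * U' := by noncomm_ring
      _ = U' * (U * A) * U' := by rw [hc]
      _ = (U' * U) * A * U' := by noncomm_ring
      _ = A * U' := by rw [hU, one_mul]
  have hY : adj H X = A * U' := by rw [hXA, adj_mul hu, hA]
  obtain ⟨l, hl⟩ := spectrum.nonempty_of_isAlgClosed_of_finiteDimensional ℂ U
  rw [spectrum.mem_iff] at hl
  set al : Matrix (Fin n) (Fin n) ℂ := algebraMap ℂ _ l with hal
  set bl : Matrix (Fin n) (Fin n) ℂ := algebraMap ℂ _ (star l) with hbl
  have hcl : ∀ Z : Matrix (Fin n) (Fin n) ℂ, Commute al Z := fun Z => Algebra.commutes l Z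
  have hcb : ∀ Z : Matrix (Fin n) (Fin n) ℂ, Commute bl Z := fun Z => Algebra.commutes (star l) Z
  have hT : adj H ((U - al) * (U' - bl)) = (U - al) * (U' - bl) := by
    rw [adj_mul hu, adj_sub, adj_sub, ← hU'def, hU'def, adj_adj hH hu, hbl, adj_scalar hu, hal,
      adj_scalar hu, star_star]
  have hTc : ∀ Z : Matrix (Fin n) (Fin n) ℂ, Commute U Z → Commute U' Z →
      Commute ((U - al) * (U' - bl)) Z := by
    intro Z h1 h2
    exact (h1.sub_left (hcl Z)).mul_left (h2.sub_left (hcb Z))
  have hTU : Commute ((U - al) * (U' - bl)) U := hTc U (Commute.refl U) hUU'.symm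
  have hTX : Commute ((U - al) * (U' - bl)) X := by
    rw [hXA]
    exact (hTc U (Commute.refl U) hUU'.symm).mul_right (hTc A hUA hU'A)
  have hTY : Commute ((U - al) * (U' - bl)) (adj H X) := by
    rw [hY]
    exact (hTc A hUA hU'A).mul_right (hTc U' hUU' (Commute.refl U'))
  have hnil : IsNilpotent ((U - al) * (U' - bl)) := by
    rcases fitting hH hu hind hT hTX hTY with h | h
    · exact h
    · exfalso
      apply hl
      have hcomm : Commute (U - al) (U' - bl) :=
        (hUU'.sub_left (hcl U')).sub_right ((hcb (U - al)).symm)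
      have := (hcomm.isUnit_mul_iff.mp h).1
      rw [← IsUnit.neg_iff, neg_sub]
      exact this
  have hN : IsNilpotent ((U - al) * (U' - bl) * U) := hTU.isNilpotent_mul_right hnil
  have hUunit : IsUnit U := ⟨⟨U, U', hU', hU⟩, rfl⟩
  -- `M = (U + l) (1 + l̄ U)` is invertible
  have hcc : al * bl = algebraMap ℂ _ ((Complex.normSq l : ℝ) : ℂ) := by
    rw [hal, hbl, ← map_mul]
    congr 1
    exact Complex.mul_conj l
  have hMu : IsUnit ((U + al) * (1 + bl * U)) := by
    have h1 : (U + al) * (1 + bl * U) =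
        (algebraMap ℂ _ (2 * (1 + ((Complex.normSq l : ℝ) : ℂ))) * U) +
          -((U - al) * (U' - bl) * U) := by
      have e1 : (U - al) * (U' - bl) * U = U - U * bl * U - al + al * bl * U := by
        linear_combination (norm := noncomm_ring) U * hU - al * hU
      have e2 : (algebraMap ℂ (Matrix (Fin n) (Fin n) ℂ))
          (2 * (1 + ((Complex.normSq l : ℝ) : ℂ))) = 2 + 2 * (al * bl) := by
        rw [hcc, map_mul, map_add, map_one, map_ofNat, mul_add, mul_one]
      rw [e1, e2]
      noncomm_ring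
    rw [h1]
    apply IsNilpotent.isUnit_add_left_of_commute hN.neg
    · apply IsUnit.mul _ hUunit
      apply IsUnit.map
      rw [isUnit_iff_ne_zero]
      have h2 : (0 : ℝ) < 2 * (1 + Complex.normSq l) := by
        have := Complex.normSq_nonneg l
        positivity
      exact_mod_cast h2.ne'
    · apply Commute.neg_left
      apply Commute.mul_right
      · exact (Algebra.commutes _ _ : Commute _ _).symm
      · exact hTU.mul_left (Commute.refl U)
  have hsc : SemiconjBy D (-((U + al) * (1 + bl * U))) ((U - al) * (U' - bl) * U) := by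
    show D * (-((U + al) * (1 + bl * U))) = (U - al) * (U' - bl) * U * D
    have c1 : al * D = D * al := (hcl D).eq
    have c2 : bl * D = D * bl := (hcb D).eq
    linear_combination (norm := noncomm_ring) -(U * hU * D) + al * hU * D - hD + U * bl * hD
      - U * c2 * U - hD * (bl * U) + c1 - al * bl * hD + al * c2 * U + c1 * (bl * U)
  obtain ⟨m, hm⟩ := hN
  have h2 := hsc.pow_right m
  rw [hm] at h2
  have h3 : D * (-((U + al) * (1 + bl * U))) ^ m = 0 := by
    rw [h2.eq, zero_mul]
  exact (((hMu.neg).pow m).mul_left_eq_zero).mp h3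

end fitting

theorem comm_inv {R : Type*} [Ring R] {U U' A : R} (h1 : U' * U = 1) (h2 : U * U' = 1)
    (hc : U * A = A * U) : U' * A = A * U' := by
  linear_combination (norm := noncomm_ring) -(U' * A * h2) - U' * hc * U' + h1 * (A * U')

/-- The unitary factor of one decomposition commutes with the selfadjoint factor of the other. -/
theorem comm_cross {H X : Matrix (Fin n) (Fin n) ℂ} (hH : H.IsHermitian) (hu : IsUnit H)
    (hX : X ≠ 0) (hind : ¬ Decomposable H X) {U A V C : Matrix (Fin n) (Fin n) ℂ}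
    (hp : IsPolar H X U A) (hq : IsPolar H X V C) : U * C = C * U := by
  obtain ⟨hU, hA, hXA, hc⟩ := id hp
  obtain ⟨hV, hC, hXC, hd⟩ := id hq
  have hU' : U * adj H U = 1 := mul_eq_one_comm.mp hU
  have hV' : V * adj H V = 1 := mul_eq_one_comm.mp hV
  have hYA : adj H X = A * adj H U := by rw [hXA, adj_mul hu, hA]
  have hYC : adj H X = C * adj H V := by rw [hXC, adj_mul hu, hC]
  set U' := adj H U with hU'def
  set V' := adj H V with hV'def
  have hU'A : U' * A = A * U' := comm_inv hU hU' hc
  have hV'C : V' * C = C * V' := comm_inv hV hV' hd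
  have h1 : U * A = V * C := hXA.symm.trans hXC
  have h2 : A * U' = C * V' := hYA.symm.trans hYC
  have h3 : U * U * C = V * V * C := by
    calc U * U * C = U * U * (C * V') * V := by
          linear_combination (norm := noncomm_ring) -(U * U * C * hV)
      _ = U * U * (U' * A) * V := by rw [← h2, hU'A]
      _ = U * (U * U') * A * V := by noncomm_ring
      _ = U * A * V := by rw [hU', mul_one]
      _ = V * C * V := by rw [h1]
      _ = V * V * C := by rw [mul_assoc, ← hd, ← mul_assoc]
  have h4 : C * U * U = C * V * V := by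
    calc C * U * U = V * (V' * C) * U * U := by
          linear_combination (norm := noncomm_ring) -(hV' * C * U * U)
      _ = V * (A * U') * U * U := by rw [hV'C, ← h2]
      _ = V * A * (U' * U) * U := by noncomm_ring
      _ = V * (U * A) := by rw [hU, mul_one, hc, mul_assoc]
      _ = V * (V * C) := by rw [h1]
      _ = C * V * V := by rw [hd, ← mul_assoc, hd]
  have h5 : V * V * C = C * V * V := by rw [mul_assoc, hd, ← mul_assoc, hd]
  have h6 : U * U * C = C * U * U := by rw [h3, h4, h5]
  have h7 : U * (U * C - C * U) = -((U * C - C * U) * U) := by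
    linear_combination (norm := noncomm_ring) h6
  exact sub_eq_zero.mp (anticomm hH hu hX hind hp h7)

/-- The selfadjoint factor is unique up to sign. -/
theorem unique_up_to_sign {H X : Matrix (Fin n) (Fin n) ℂ} (hH : H.IsHermitian) (hu : IsUnit H)
    (hX : X ≠ 0) (hind : ¬ Decomposable H X) {U A V C : Matrix (Fin n) (Fin n) ℂ}
    (hp : IsPolar H X U A) (hq : IsPolar H X V C) : C = A ∨ C = -A := by
  have hUC : U * C = C * U := comm_cross hH hu hX hind hp hq
  have hVA : V * A = A * V := comm_cross hH hu hX hind hq hp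
  obtain ⟨hU, hA, hXA, hc⟩ := id hp
  obtain ⟨hV, hC, hXC, hd⟩ := id hq
  have hU' : U * adj H U = 1 := mul_eq_one_comm.mp hU
  have hV' : V * adj H V = 1 := mul_eq_one_comm.mp hV
  have hYA : adj H X = A * adj H U := by rw [hXA, adj_mul hu, hA]
  have hYC : adj H X = C * adj H V := by rw [hXC, adj_mul hu, hC]
  set U' := adj H U with hU'def
  set V' := adj H V with hV'def
  have hU'A : U' * A = A * U' := comm_inv hU hU' hc
  have hU'C : U' * C = C * U' := comm_inv hU hU' hUC
  have h1 : U * A = V * C := hXA.symm.trans hXC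
  have h2 : A * U' = C * V' := hYA.symm.trans hYC
  have gA : U' * V * A = C := by
    calc U' * V * A = U' * A * V := by rw [mul_assoc, hVA, ← mul_assoc]
      _ = C * (V' * V) := by rw [hU'A, h2, mul_assoc]
      _ = C := by rw [hV, mul_one]
  have gC : U' * V * C = A := by
    rw [mul_assoc, ← h1, ← mul_assoc, hU, one_mul]
  have hGA : U' * V * A = A * (U' * V) := by
    rw [mul_assoc, hVA, ← mul_assoc, hU'A, mul_assoc]
  have hGC : U' * V * C = C * (U' * V) := by
    rw [mul_assoc, hd, ← mul_assoc, hU'C, mul_assoc]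
  set G := U' * V with hG
  have hAC : A * C = C * A := by
    calc A * C = A * (G * A) := by rw [gA]
      _ = (A * G) * A := (mul_assoc A G A).symm
      _ = C * A := by rw [← hGA, gA]
  have hCC : C * C = A * A := by
    calc C * C = G * A * C := by rw [gA]
      _ = G * C * A := by rw [mul_assoc, hAC, ← mul_assoc]
      _ = A * A := by rw [gC]
  have hZZ : (A - C) * (A + C) = 0 := by
    linear_combination (norm := noncomm_ring) hAC - hCC
  have hZZ' : (A + C) * (A - C) = 0 := by
    linear_combination (norm := noncomm_ring) -hAC - hCC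
  have hadjp : adj H (A + C) = A + C := by rw [adj_add, hA, hC]
  -- the kernel of `A - C`, its radical, the range of `A + C`
  set K : Submodule ℂ (Fin n → ℂ) := LinearMap.ker (Matrix.mulVecLin (A - C)) with hK
  have hKmem : ∀ x, x ∈ K ↔ (A - C) *ᵥ x = 0 := by
    intro x
    rw [hK, LinearMap.mem_ker, Matrix.mulVecLin_apply]
  set I : Submodule ℂ (Fin n → ℂ) := LinearMap.range (Matrix.mulVecLin (A + C)) with hI
  have hImem : ∀ x, x ∈ I ↔ ∃ a, (A + C) *ᵥ a = x := by
    intro x
    rw [hI, LinearMap.mem_range]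
    simp only [Matrix.mulVecLin_apply]
  let R : Submodule ℂ (Fin n → ℂ) :=
    { carrier := {r | r ∈ K ∧ ∀ k ∈ K, form H k r = 0}
      add_mem' := by
        rintro a b ⟨ha, ha'⟩ ⟨hb, hb'⟩
        refine ⟨K.add_mem ha hb, fun k hk => ?_⟩
        rw [form_add_right, ha' k hk, hb' k hk, add_zero]
      zero_mem' := ⟨K.zero_mem, fun k _ => form_zero_right k⟩
      smul_mem' := by
        rintro c a ⟨ha, ha'⟩
        refine ⟨K.smul_mem c ha, fun k hk => ?_⟩
        rw [form_smul_right, ha' k hk, mul_zero] }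
  have hRmem : ∀ r, r ∈ R ↔ r ∈ K ∧ ∀ k ∈ K, form H k r = 0 := fun r => Iff.rfl
  have hdisj : Disjoint I R := by
    rw [Submodule.disjoint_def]
    intro x hx hxR
    obtain ⟨a, rfl⟩ := (hImem x).mp hx
    obtain ⟨_, hxR2⟩ := (hRmem _).mp hxR
    apply eq_zero_of_form_right hH hu
    intro v
    have hv : v = (2⁻¹ : ℂ) • (v + G *ᵥ v) + (2⁻¹ : ℂ) • (v - G *ᵥ v) := by
      module
    rw [hv, form_add_left]
    have h5 : (2⁻¹ : ℂ) • (v + G *ᵥ v) ∈ K := by
      rw [hKmem, Matrix.mulVec_smul, Matrix.mulVec_add, Matrix.mulVec_mulVec]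
      have : (A - C) * G = -(A - C) := by
        rw [sub_mul, ← hGA, ← hGC, gA, gC]
        noncomm_ring
      rw [this, Matrix.neg_mulVec, add_neg_cancel, smul_zero]
    have h6 : (A + C) *ᵥ ((2⁻¹ : ℂ) • (v - G *ᵥ v)) = 0 := by
      rw [Matrix.mulVec_smul, Matrix.mulVec_sub, Matrix.mulVec_mulVec]
      have : (A + C) * G = A + C := by
        rw [add_mul, ← hGA, ← hGC, gA, gC, add_comm]
      rw [this, sub_self, smul_zero]
    rw [hxR2 _ h5, zero_add]
    rw [← hadjp, ← form_adj hH hu, h6, form_zero_left]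
  obtain ⟨W', hIW', hW'⟩ := hdisj.exists_isCompl
  have hIK : I ≤ K := by
    intro x hx
    obtain ⟨a, rfl⟩ := (hImem x).mp hx
    rw [hKmem, Matrix.mulVec_mulVec, hZZ, Matrix.zero_mulVec]
  have hRK : R ≤ K := fun r hr => ((hRmem r).mp hr).1
  have hIW : I ≤ W' ⊓ K := le_inf hIW' hIK
  have hsup : W' ⊓ K ⊔ R = K := by
    apply le_antisymm (sup_le inf_le_right hRK)
    intro x hx
    have hx' : x ∈ W' ⊔ R := by
      rw [hW'.sup_eq_top]
      trivial
    obtain ⟨w, hw, r, hr, rfl⟩ := Submodule.mem_sup.mp hx'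
    refine Submodule.mem_sup.mpr ⟨w, ⟨hw, ?_⟩, r, hr, rfl⟩
    have := K.sub_mem hx (hRK hr)
    rwa [add_sub_cancel_right] at this
  have hnd : Nondegenerate H (W' ⊓ K) := by
    intro x hx h
    have hxR : x ∈ R := by
      rw [hRmem]
      refine ⟨hx.2, fun k hk => ?_⟩
      rw [← hsup] at hk
      obtain ⟨w, hw, r, hr, rfl⟩ := Submodule.mem_sup.mp hk
      rw [form_add_left, form_symm_zero hH (h w hw),
        form_symm_zero hH (((hRmem r).mp hr).2 x hx.2), add_zero]
    exact (Submodule.disjoint_def.mp hW'.disjoint) x hx.1 hxR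
  have hinv : ∀ Z : Matrix (Fin n) (Fin n) ℂ, Z * A = A * Z → Z * C = C * Z →
      ∀ x ∈ W' ⊓ K, (Z * A) *ᵥ x ∈ W' ⊓ K := by
    intro Z hZA hZC x hx
    apply hIW
    rw [hImem]
    refine ⟨(2⁻¹ : ℂ) • (Z *ᵥ x), ?_⟩
    have h5 : A *ᵥ x = C *ᵥ x := by
      have := (hKmem x).mp hx.2
      rw [Matrix.sub_mulVec] at this
      exact sub_eq_zero.mp this
    have h6 : (A + C) * Z = Z * (A + C) := by rw [mul_add, add_mul, hZA, hZC]
    rw [Matrix.mulVec_smul, Matrix.mulVec_mulVec, h6, ← Matrix.mulVec_mulVec, Matrix.add_mulVec,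
      ← h5, ← Matrix.mulVec_mulVec, Matrix.mulVec_add]
    module
  have hcase : W' ⊓ K = ⊥ ∨ W' ⊓ K = ⊤ := by
    by_contra hcon
    push Not at hcon
    apply hind
    refine ⟨W' ⊓ K, hcon.1, hcon.2, hnd, ?_, ?_⟩
    · intro x hx
      rw [hXA]
      exact hinv U hc hUC x hx
    · intro x hx
      rw [hYA, ← hU'A]
      exact hinv U' hU'A hU'C x hx
  rcases hcase with h | h
  · right
    have : A + C = 0 := by
      have h5 : I = ⊥ := le_bot_iff.mp (h ▸ hIW)
      rw [hI, LinearMap.range_eq_bot] at h5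
      exact Matrix.toLin'.map_eq_zero_iff.mp h5
    exact eq_neg_of_add_eq_zero_right this
  · left
    have : A - C = 0 := by
      have h5 : K = ⊤ := top_le_iff.mp (h ▸ inf_le_right)
      rw [hK, LinearMap.ker_eq_top] at h5
      exact Matrix.toLin'.map_eq_zero_iff.mp h5
    exact (sub_eq_zero.mp this).symm

/-- `CPD(X, H) = 2`. -/
theorem result (H X : Matrix (Fin n) (Fin n) ℂ) (hH : H.IsHermitian) (hu : IsUnit H) (hX : X ≠ 0)
    (hind : ¬ Decomposable H X) (hex : (factors H X).Nonempty) : (factors H X).encard = 2 := by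
  obtain ⟨A, U, hp⟩ := hex
  have hset : factors H X = {A, -A} := by
    ext C
    simp only [factors, Set.mem_ofPred_eq, Set.mem_insert_iff, Set.mem_singleton_iff]
    constructor
    · rintro ⟨V, hq⟩
      exact unique_up_to_sign hH hu hX hind hp hq
    · rintro (rfl | rfl)
      · exact ⟨U, hp⟩
      · obtain ⟨h1, h2, h3, h4⟩ := hp
        have hneg : ∀ Z : Matrix (Fin n) (Fin n) ℂ, adj H (-Z) = -adj H Z := by
          intro Z
          simp [adj]
        refine ⟨-U, ?_, ?_, ?_, ?_⟩
        · rw [hneg, neg_mul_neg, h1]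
        · rw [hneg, h2]
        · rw [neg_mul_neg, h3]
        · rw [neg_mul_neg, neg_mul_neg, h4]
  have hA0 : A ≠ 0 := by
    rintro rfl
    apply hX
    rw [hp.2.2.1, mul_zero]
  have hne : A ≠ -A := by
    intro h
    apply hA0
    ext i j
    have := congrFun (congrFun h i) j
    simp only [Matrix.neg_apply] at this
    simpa using self_eq_neg.mp this
  rw [hset, Set.encard_pair hne]

end Pool.Agent.Results.MP_d7084b_al.CommutingPolar
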